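import Mathlib
import Pool.Agent.V1181.FBU
import Pool.Agent.V1181.FBReg

/-!
# A free boundary with harmonic right-hand side that is `C¹` but not `C^{1,α}`
-/

set_option autoImplicit false

namespace Pool.Agent.Results.MP_056161_an.NotHolder

open Complex Set Filter Topology MeasureTheory InnerProductSpace Laplacian
open Pool.Agent.V1181

/-- `D` is a Lipschitz domain of the plane: open, connected and, near each boundary point and in
suitably rotated coordinates, the region on one side of the graph of a Lipschitz function. -/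
def IsLipschitzDomain (D : Set ℂ) : Prop :=
  IsOpen D ∧ IsConnected D ∧ ∀ p ∈ frontier D, ∃ ρ : ℝ, 0 < ρ ∧ ∃ ω : ℂ, ‖ω‖ = 1 ∧
    ∃ (L : NNReal) (h : ℝ → ℝ), LipschitzWith L h ∧
      ∀ z ∈ Metric.ball p ρ, z ∈ D ↔ h (ω * z).im < (ω * z).re

/-- In some rotated coordinates, the part of the boundary of `D` in the disc of radius `ρ` about
the origin is the graph of `h`. -/
def FrontierGraph (D : Set ℂ) (ρ : ℝ) (h : ℝ → ℝ) : Prop :=
  ∃ ω : ℂ, ‖ω‖ = 1 ∧ ∀ z ∈ Metric.ball (0 : ℂ) ρ, z ∈ frontier D ↔ (ω * z).re = h (ω * z).im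

/-- The boundary of `D` is of class `C^n` near the origin (`n = ω` means real-analytic). -/
def IsCNear (n : WithTop ℕ∞) (D : Set ℂ) : Prop :=
  ∃ ρ : ℝ, 0 < ρ ∧ ∃ h : ℝ → ℝ, FrontierGraph D ρ h ∧ ContDiffOn ℝ n h (Ioo (-ρ) ρ)

/-- The boundary of `D` is of class `C^{1,α}` near the origin. -/
def IsC1HolderNear (α : ℝ) (D : Set ℂ) : Prop :=
  ∃ ρ : ℝ, 0 < ρ ∧ ∃ h : ℝ → ℝ, FrontierGraph D ρ h ∧ ContDiffOn ℝ 1 h (Ioo (-ρ) ρ) ∧
    ∃ C : ℝ, ∀ s ∈ Ioo (-ρ) ρ, ∀ t ∈ Ioo (-ρ) ρ, |deriv h s - deriv h t| ≤ C * |s - t| ^ α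

theorem core {ρ : ℝ} (hρ : 0 < ρ) {h : ℝ → ℝ} (hg : FrontierGraph FB.D ρ h) {α C δ : ℝ}
    (hα : 0 < α) (hδ : 0 < δ) (hd : ∀ s : ℝ, |s| < δ → HasDerivAt h (deriv h s) s)
    (hC : ∀ s : ℝ, |s| < δ → |deriv h s - deriv h 0| ≤ C * |s| ^ α) : False := by
  obtain ⟨ω, hω, hgr⟩ := hg
  set a := ω.re with ha
  set b := ω.im with hb
  set m := deriv h 0 with hm
  have hab : a ^ 2 + b ^ 2 = 1 := by
    have h1 : normSq ω = 1 := by rw [normSq_eq_norm_sq, hω]; norm_num
    rw [normSq_apply] at h1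
    nlinarith
  have ha1 : |a| ≤ 1 := by
    rw [ha, ← hω]; exact abs_re_le_norm ω
  have hb1 : |b| ≤ 1 := by
    rw [hb, ← hω]; exact abs_im_le_norm ω
  have hgY : ∀ Y : ℝ, FB.g Y ≤ |Y| := by
    intro Y
    have := FB.g_lip Y 0
    rw [FB.g_zero, sub_zero, sub_zero, abs_of_nonneg (FB.g_nonneg Y)] at this
    have := abs_nonneg Y
    linarith
  -- the graph equation
  have hE : ∀ Y : ℝ, |Y| < ρ / 2 → a * FB.g Y - b * Y = h (a * Y + b * FB.g Y) := by
    intro Y hY
    have hz : (⟨FB.g Y, Y⟩ : ℂ) ∈ Metric.ball (0 : ℂ) ρ := by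
      rw [mem_ball_zero_iff]
      refine (norm_le_abs_re_add_abs_im _).trans_lt ?_
      simp only
      rw [abs_of_nonneg (FB.g_nonneg Y)]
      linarith [hgY Y]
    have h1 := (hgr _ hz).mp (by rw [FB.frontier_D]; rfl)
    have e1 : (ω * ⟨FB.g Y, Y⟩ : ℂ).re = a * FB.g Y - b * Y := by simp [ha, hb]
    have e2 : (ω * ⟨FB.g Y, Y⟩ : ℂ).im = a * Y + b * FB.g Y := by simp [ha, hb]
    rw [e1, e2] at h1
    exact h1
  have hh0 : h 0 = 0 := by
    have := hE 0 (by rw [abs_zero]; positivity)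
    rw [FB.g_zero] at this
    simpa using this.symm
  -- comparison of derivatives at zero
  have hma : -b = m * a := by
    have d1 : HasDerivAt (fun Y : ℝ => a * FB.g Y - b * Y) (a * 0 - b * 1) 0 :=
      (FB.g_hasDerivAt_zero.const_mul a).sub ((hasDerivAt_id (0 : ℝ)).const_mul b)
    have d2 : HasDerivAt (fun Y : ℝ => a * Y + b * FB.g Y) (a * 1 + b * 0) 0 :=
      ((hasDerivAt_id (0 : ℝ)).const_mul a).add (FB.g_hasDerivAt_zero.const_mul b)
    have d3 : HasDerivAt h m (a * 0 + b * FB.g 0) := by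
      rw [FB.g_zero, mul_zero, mul_zero, add_zero]
      exact hd 0 (by simpa using hδ)
    have d4 := HasDerivAt.comp (0 : ℝ) d3 d2
    have hev : (fun Y : ℝ => a * FB.g Y - b * Y) =ᶠ[𝓝 0] h ∘ fun Y : ℝ => a * Y + b * FB.g Y := by
      have hopen : IsOpen {Y : ℝ | |Y| < ρ / 2} := isOpen_lt continuous_abs continuous_const
      filter_upwards [hopen.mem_nhds (by simp [hρ] : (0 : ℝ) ∈ {Y : ℝ | |Y| < ρ / 2})] with Y hY
      exact hE Y hY
    have d5 := d1.unique (d4.congr_of_eventuallyEq hev)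
    simpa using d5
  have ha0 : a ≠ 0 := by
    intro h0
    rw [h0, mul_zero] at hma
    have hb0 : b = 0 := by linarith
    rw [h0, hb0] at hab
    norm_num at hab
  have hCnn : 0 ≤ C := by
    have h1 := hC (δ / 2) (by rw [abs_of_pos (by positivity)]; linarith)
    have h2 : 0 < |δ / 2| ^ α := Real.rpow_pos_of_pos (by positivity) _
    by_contra hneg
    push Not at hneg
    have h3 := abs_nonneg (deriv h (δ / 2) - m)
    nlinarith
  -- Taylor estimate for `h`
  have hT : ∀ s : ℝ, |s| < δ → |h s - m * s| ≤ C * |s| ^ (1 + α) := by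
    intro s hs
    have hsub : ∀ x ∈ uIcc 0 s, |x| ≤ |s| := by
      intro x hx
      have := abs_sub_left_of_mem_uIcc hx
      simpa using this
    have h1 := Convex.norm_image_sub_le_of_norm_hasDerivWithin_le (f := fun x => h x - m * x)
      (f' := fun x => deriv h x - m) (s := uIcc 0 s) (C := C * |s| ^ α) (x := 0) (y := s)
      (fun x hx => by
        have hx' : |x| < δ := (hsub x hx).trans_lt hs
        have e1 := (hd x hx').sub ((hasDerivAt_id x).const_mul m)
        have e2 : HasDerivAt (fun x => h x - m * x) (deriv h x - m) x := by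
          refine e1.congr_deriv ?_
          simp
        exact e2.hasDerivWithinAt)
      (fun x hx => by
        have hx' : |x| < δ := (hsub x hx).trans_lt hs
        rw [Real.norm_eq_abs]
        refine (hC x hx').trans ?_
        have := hsub x hx
        gcongr)
      (convex_uIcc 0 s) left_mem_uIcc right_mem_uIcc
    simp only [hh0, mul_zero, sub_zero, Real.norm_eq_abs] at h1
    refine h1.trans ?_
    by_cases h0 : s = 0
    · subst h0
      simp only [abs_zero, mul_zero]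
      positivity
    · have hs0 : 0 < |s| := abs_pos.mpr h0
      rw [Real.rpow_add hs0, Real.rpow_one]
      nlinarith
  -- conclusion
  refine FB.g_not_holder (α := α) (C := C * 2 ^ (1 + α)) (δ := min (ρ / 2) (δ / 2)) hα
    (by positivity) fun Y hY hY2 => ?_
  have hYρ : |Y| < ρ / 2 := by rw [abs_of_pos hY]; exact lt_of_lt_of_le hY2 (min_le_left _ _)
  have hYδ : Y < δ / 2 := lt_of_lt_of_le hY2 (min_le_right _ _)
  have hE1 := hE Y hYρ
  have hs : |a * Y + b * FB.g Y| ≤ 2 * Y := by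
    refine (abs_add_le _ _).trans ?_
    rw [abs_mul, abs_mul, abs_of_pos hY, abs_of_nonneg (FB.g_nonneg Y)]
    have h1 := hgY Y
    rw [abs_of_pos hY] at h1
    have h2 : |b| * FB.g Y ≤ 1 * Y := by
      have := FB.g_nonneg Y
      gcongr
    have h3 : |a| * Y ≤ 1 * Y := by gcongr
    linarith
  have h1 := hT (a * Y + b * FB.g Y) (by linarith)
  rw [← hE1] at h1
  have e1 : a * (a * FB.g Y - b * Y - m * (a * Y + b * FB.g Y)) = FB.g Y := by
    have e2 : a * (a * FB.g Y - b * Y - m * (a * Y + b * FB.g Y))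
        = (a ^ 2 - (m * a) * b) * FB.g Y - a * Y * (b + m * a) := by ring
    rw [e2, ← hma]
    have e3 : a ^ 2 - -b * b = 1 := by linarith
    rw [e3]
    ring
  have h2 : FB.g Y ≤ |a * FB.g Y - b * Y - m * (a * Y + b * FB.g Y)| := by
    nth_rewrite 1 [← e1]
    refine (le_abs_self _).trans ?_
    rw [abs_mul]
    have := abs_nonneg (a * FB.g Y - b * Y - m * (a * Y + b * FB.g Y))
    nlinarith
  refine h2.trans (h1.trans ?_)
  have h3 : |a * Y + b * FB.g Y| ^ (1 + α) ≤ (2 * Y) ^ (1 + α) := by gcongr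
  rw [Real.mul_rpow (by norm_num) hY.le] at h3
  calc C * |a * Y + b * FB.g Y| ^ (1 + α) ≤ C * (2 ^ (1 + α) * Y ^ (1 + α)) := by gcongr
    _ = _ := by ring

theorem not_holder {α : ℝ} (hα : 0 < α) : ¬ IsC1HolderNear α FB.D := by
  rintro ⟨ρ, hρ, h, hgr, hc, C, hC⟩
  have hmem : ∀ s : ℝ, |s| < ρ → s ∈ Ioo (-ρ) ρ := fun s hs => abs_lt.mp hs
  refine core hρ hgr hα hρ (C := C) (fun s hs => ?_) fun s hs => ?_
  · exact ((hc.contDiffAt (isOpen_Ioo.mem_nhds (hmem s hs))).differentiableAt (by simp)).hasDerivAt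
  · have := hC s (hmem s hs) 0 (hmem 0 (by simpa using hρ))
    simpa using this

theorem not_smooth {n : WithTop ℕ∞} (hn : 2 ≤ n) : ¬ IsCNear n FB.D := by
  rintro ⟨ρ, hρ, h, hgr, hc⟩
  have hmem : ∀ s : ℝ, |s| < ρ → s ∈ Ioo (-ρ) ρ := fun s hs => abs_lt.mp hs
  have hc2 : ContDiffOn ℝ (1 + 1) h (Ioo (-ρ) ρ) := by
    refine hc.of_le ?_
    rwa [one_add_one_eq_two]
  have h1 := ((contDiffOn_succ_iff_deriv_of_isOpen isOpen_Ioo).mp hc2).2.2
  have h2 : DifferentiableAt ℝ (deriv h) 0 :=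
    (h1.contDiffAt (isOpen_Ioo.mem_nhds (hmem 0 (by simpa using hρ)))).differentiableAt (by simp)
  have h3 := h2.isBigO_sub
  obtain ⟨C, hC⟩ := h3.bound
  rw [Metric.eventually_nhds_iff] at hC
  obtain ⟨δ, hδ, hC⟩ := hC
  refine core hρ hgr (α := 1) one_pos (δ := min ρ δ) (lt_min hρ hδ) (C := C)
    (fun s hs => ?_) fun s hs => ?_
  · exact ((hc2.contDiffAt (isOpen_Ioo.mem_nhds (hmem s (lt_of_lt_of_le hs (min_le_left _ _))))
      ).differentiableAt (by simp)).hasDerivAt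
  · have := hC (y := s) (by rw [Real.dist_eq, sub_zero]; exact lt_of_lt_of_le hs (min_le_right _ _))
    simpa using this

/-- There are a Lipschitz domain `D` of the plane with `0` on its boundary and a function `u` of
class `C^{1,1}` on the disc `B₂` with `Δ u = x₁ χ_D` almost everywhere in `B₂` and `u = 0` in `B₂`
off the closure of `D`, for which the boundary of `D` is of class `C¹` near `0` but of class
`C^{1,α}` near `0` for no `α > 0`, and of class `C^n` near `0` for no `n ≥ 2` (including `∞` and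
real-analytic). -/
theorem result : ∃ (D : Set ℂ) (u : ℂ → ℝ),
    IsLipschitzDomain D ∧ (0 : ℂ) ∈ frontier D ∧
    (∀ z ∈ Metric.ball (0 : ℂ) 2, DifferentiableAt ℝ u z) ∧
    (∃ L : NNReal, LipschitzOnWith L (fderiv ℝ u) (Metric.ball (0 : ℂ) 2)) ∧
    (∀ᵐ z ∂(volume.restrict (Metric.ball (0 : ℂ) 2)),
      ContDiffAt ℝ 2 u z ∧ Δ u z = D.indicator (fun z => z.re) z) ∧
    (∀ z ∈ Metric.ball (0 : ℂ) 2 \ closure D, u z = 0) ∧
    IsCNear 1 D ∧ (∀ α : ℝ, 0 < α → ¬ IsC1HolderNear α D) ∧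
    (∀ n : WithTop ℕ∞, 2 ≤ n → ¬ IsCNear n D) := by
  refine ⟨FB.D, FB.u, ⟨FB.D_open, FB.D_connected, fun p _ => ?_⟩, ?_, ?_, ⟨3, FB.fderiv_lip⟩, ?_,
    ?_, ?_, fun α hα => not_holder hα, fun n hn => not_smooth hn⟩
  · refine ⟨1, one_pos, 1, by simp, 1, FB.g, FB.g_lipschitz, fun z _ => ?_⟩
    rw [one_mul]
    exact Iff.rfl
  · rw [FB.frontier_D]
    show FB.g (0 : ℂ).im = (0 : ℂ).re
    simpa using FB.g_zero
  · exact fun z hz => (FB.u_hasFDerivAt hz).differentiableAt
  · have hnull : ∀ᵐ z : ℂ, z ∉ frontier FB.D := by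
      rw [ae_iff]
      simpa using FB.frontier_null
    filter_upwards [ae_restrict_of_ae hnull, ae_restrict_mem Metric.isOpen_ball.measurableSet]
      with z hz hzB
    rw [FB.frontier_D] at hz
    rcases lt_trichotomy (FB.g z.im) z.re with h | h | h
    · refine ⟨FB.u_contDiffAt hzB h, ?_⟩
      rw [FB.u_laplacian_in hzB h, indicator_of_mem (show z ∈ FB.D from h)]
    · exact absurd h hz
    · obtain ⟨h1, h2⟩ := FB.u_laplacian_out h
      refine ⟨h1, ?_⟩
      rw [h2, indicator_of_notMem (show z ∉ FB.D from not_lt.mpr h.le)]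
  · intro z hz
    have h1 : z ∉ FB.D := fun h => hz.2 (subset_closure h)
    exact if_neg h1
  · refine ⟨2, by norm_num, FB.g, ⟨1, by simp, fun z _ => ?_⟩, FB.g_contDiffOn⟩
    rw [one_mul, FB.frontier_D]
    exact ⟨fun h => (show FB.g z.im = z.re from h).symm, fun h => (show z.re = FB.g z.im from h).symm⟩

end Pool.Agent.Results.MP_056161_an.NotHolder
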